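import Mathlib

/-!
# Closed braid diagrams, band sums, unknotting number, colourings

Links are modelled by closed braid diagrams up to Markov moves.  A letter `(i, true)` of a braid
word is the generator `σ_i` crossing the strands `i` and `i + 1` (strands are numbered from `0`),
and `(i, false)` is its inverse.
-/

namespace Pool.Agent.Helper82.BS

/-- A closed braid diagram: a positive number of strands and a braid word. -/
structure Diagram where
  /-- number of strands -/
  strands : ℕ
  /-- the braid word -/
  word : List (ℕ × Bool)
  /-- there is at least one strand -/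
  pos : 0 < strands
  /-- every letter involves two of the strands -/
  valid : ∀ l ∈ word, l.1 + 1 < strands

/-- The elementary moves between closed braid diagrams: free cancellation, the two braid
relations, conjugation (cyclic rotation of the word) and Markov stabilisation. -/
inductive Step (D E : Diagram) : Prop
  | cancel (u v : List (ℕ × Bool)) (i : ℕ) (b : Bool) (hs : D.strands = E.strands)
      (hD : D.word = u ++ (i, b) :: (i, !b) :: v) (hE : E.word = u ++ v)
  | comm (u v : List (ℕ × Bool)) (i j : ℕ) (b c : Bool) (hij : i + 2 ≤ j)
      (hs : D.strands = E.strands)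
      (hD : D.word = u ++ (i, b) :: (j, c) :: v) (hE : E.word = u ++ (j, c) :: (i, b) :: v)
  | braid (u v : List (ℕ × Bool)) (i : ℕ) (hs : D.strands = E.strands)
      (hD : D.word = u ++ (i, true) :: (i + 1, true) :: (i, true) :: v)
      (hE : E.word = u ++ (i + 1, true) :: (i, true) :: (i + 1, true) :: v)
  | conj (u v : List (ℕ × Bool)) (hs : D.strands = E.strands)
      (hD : D.word = u ++ v) (hE : E.word = v ++ u)
  | stab (b : Bool) (hs : D.strands = E.strands + 1)
      (hD : D.word = E.word ++ [(E.strands - 1, b)])

/-- Two closed braid diagrams represent the same oriented link: Markov equivalence. -/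
def SameLink : Diagram → Diagram → Prop := Relation.EqvGen Step

/-- The permutation of the strands induced by a braid word. -/
def perm (w : List (ℕ × Bool)) : Equiv.Perm ℕ :=
  w.foldl (fun s l => Equiv.swap l.1 (l.1 + 1) * s) 1

/-- The closed braid is a knot: its permutation moves strand `0` to every strand. -/
def IsKnot (D : Diagram) : Prop := ∀ i < D.strands, ∃ k : ℕ, (perm D.word ^ k) 0 = i

/-- The trivial diagram of the unknot: one strand, no crossing. -/
def unknot : Diagram := ⟨1, [], Nat.one_pos, by simp⟩

/-- `S` is the split union of the closed braids `D` and `E`, placed side by side. -/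
def IsSplitUnion (S D E : Diagram) : Prop :=
  S.strands = D.strands + E.strands ∧
    S.word = D.word ++ E.word.map fun l => (l.1 + D.strands, l.2)

/-- `E` arises from `D` by attaching a (coherently oriented, half twisted) band between two
adjacent strands, that is, by inserting one letter in the braid word. -/
def BandMove (D E : Diagram) : Prop :=
  ∃ (u v : List (ℕ × Bool)) (i : ℕ) (b : Bool), D.strands = E.strands ∧ D.word = u ++ v ∧
    E.word = u ++ (i, b) :: v

/-- The knot `K` is a band sum of the knots `K₁` and `K₂`: some diagram of the split link of `K₁`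
and `K₂` becomes a diagram of `K` by one band move. -/
def IsBandSum (K K₁ K₂ : Diagram) : Prop :=
  IsKnot K₁ ∧ IsKnot K₂ ∧ IsKnot K ∧
    ∃ S D E : Diagram, IsSplitUnion S K₁ K₂ ∧ SameLink D S ∧ BandMove D E ∧ SameLink E K

/-- `E` arises from `D` by one crossing change. -/
def CrossingChange (D E : Diagram) : Prop :=
  ∃ (u v : List (ℕ × Bool)) (i : ℕ) (b : Bool), D.strands = E.strands ∧
    D.word = u ++ (i, b) :: v ∧ E.word = u ++ (i, !b) :: v

/-- `UnknotsIn k D`: the link of `D` can be turned into the unknot by `k` crossing changes,
with arbitrary changes of diagram in between. -/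
inductive UnknotsIn : ℕ → Diagram → Prop
  | unknot {D : Diagram} (h : SameLink D unknot) : UnknotsIn 0 D
  | change {k : ℕ} {D E E' : Diagram} (h : SameLink D E) (h' : CrossingChange E E')
      (h'' : UnknotsIn k E') : UnknotsIn (k + 1) D

/-- The unknotting number. -/
noncomputable def unknottingNumber (D : Diagram) : ℕ∞ :=
  ⨅ (k : ℕ) (_ : UnknotsIn k D), (k : ℕ∞)

/-- The rule of the Alexander quandle of `(F, t)` at one crossing: if the strands `i`, `i + 1`
carry the colours `a`, `b` above the crossing `(i, true)`, they carry `(1 - t) a + t b` and `a`
below it; for `(i, false)` the inverse rule applies. -/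
noncomputable def cross {F : Type*} [Field F] (t : F) (x : ℕ → F) (l : ℕ × Bool) : ℕ → F :=
  fun j => if j = l.1 then (if l.2 then (1 - t) * x l.1 + t * x (l.1 + 1) else x (l.1 + 1))
    else if j = l.1 + 1 then (if l.2 then x l.1 else t⁻¹ * (x l.1 - (1 - t) * x (l.1 + 1)))
    else x j

/-- The colourings of a closed braid diagram by the Alexander quandle of `(F, t)`: colours `x j`
of the strands `j < D.strands` at the top which the braid word reproduces at the bottom. -/
def Col {F : Type*} [Field F] (t : F) (D : Diagram) : Set (ℕ → F) :=
  {x | (∀ j, D.strands ≤ j → x j = 0) ∧ D.word.foldl (cross t) x = x}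

/-- There is a colouring which is not constant. -/
def NonConstant {F : Type*} [Field F] (t : F) (D : Diagram) : Prop :=
  ∃ x ∈ Col t D, ∃ i < D.strands, ∃ j < D.strands, x i ≠ x j

end Pool.Agent.Helper82.BS
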