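import Mathlib
import Pool.Agent.Helper82.BS.Defs

/-!
# Band sums of knots: the space of colourings under moves, band moves and crossing changes
-/

namespace Pool.Agent.Helper82.BS

open Module

/-- letters -/
abbrev Letter := ℕ × Bool

/-- The split union of two closed braids, placed side by side. -/
def split (D E : Diagram) : Diagram where
  strands := D.strands + E.strands
  word := D.word ++ E.word.map (fun l => (l.1 + D.strands, l.2))
  pos := Nat.add_pos_left D.pos _
  valid := by
    intro l hl
    rcases List.mem_append.1 hl with h | h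
    · have := D.valid l h
      omega
    · obtain ⟨m, hm, rfl⟩ := List.mem_map.1 h
      have := E.valid m hm
      simp only
      omega

section Colourings

variable {F : Type*} [Field F]

/-- The Alexander quandle rule at one crossing: if the strands `i`, `i + 1` carry the colours
`a`, `b` above the crossing `σ_i`, they carry `(1 - t) a + t b` and `a` below it; for the inverse
crossing the inverse rule applies. -/
noncomputable def act (t : F) (l : Letter) : (ℕ → F) →ₗ[F] (ℕ → F) where
  toFun x := if l.2 then
      fun j => if j = l.1 then (1 - t) * x l.1 + t * x (l.1 + 1)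
        else if j = l.1 + 1 then x l.1 else x j
    else
      fun j => if j = l.1 then x (l.1 + 1)
        else if j = l.1 + 1 then t⁻¹ * (x l.1 - (1 - t) * x (l.1 + 1)) else x j
  map_add' x y := by
    ext j
    split_ifs <;> simp only [Pi.add_apply] <;> split_ifs <;> ring
  map_smul' c x := by
    ext j
    simp only [RingHom.id_apply]
    split_ifs <;> simp only [Pi.smul_apply, smul_eq_mul] <;> split_ifs <;> ring

/-- Propagation of colours through a braid word. -/
noncomputable def actWord (t : F) : List Letter → (ℕ → F) →ₗ[F] (ℕ → F)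
  | [] => LinearMap.id
  | l :: w => (actWord t w) ∘ₗ (act t l)

/-- The space of colourings of a closed braid diagram by the Alexander quandle of `F` with
parameter `t`: colours `x j` of the strands `j < D.strands` at the top that are reproduced at
the bottom. -/
noncomputable def colourings (t : F) (D : Diagram) : Submodule F (ℕ → F) where
  carrier := {x | (∀ j, D.strands ≤ j → x j = 0) ∧ actWord t D.word x = x}
  add_mem' := by
    rintro x y ⟨hx, hx'⟩ ⟨hy, hy'⟩
    exact ⟨fun j hj => by simp [hx j hj, hy j hj], by rw [map_add, hx', hy']⟩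
  zero_mem' := ⟨fun _ _ => rfl, map_zero _⟩
  smul_mem' := by
    rintro c x ⟨hx, hx'⟩
    exact ⟨fun j hj => by simp [hx j hj], by rw [map_smul, hx']⟩

theorem mem_colourings {t : F} {D : Diagram} {x : ℕ → F} :
    x ∈ colourings t D ↔ (∀ j, D.strands ≤ j → x j = 0) ∧ actWord t D.word x = x := Iff.rfl

theorem act_true (t : F) (i : ℕ) (x : ℕ → F) (j : ℕ) :
    act t (i, true) x j = if j = i then (1 - t) * x i + t * x (i + 1)
        else if j = i + 1 then x i else x j := rfl

theorem act_false (t : F) (i : ℕ) (x : ℕ → F) (j : ℕ) :
    act t (i, false) x j = if j = i then x (i + 1)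
        else if j = i + 1 then t⁻¹ * (x i - (1 - t) * x (i + 1)) else x j := rfl

theorem act_of_ne (t : F) (l : Letter) (x : ℕ → F) (j : ℕ) (h1 : j ≠ l.1) (h2 : j ≠ l.1 + 1) :
    act t l x j = x j := by
  obtain ⟨i, b⟩ := l
  cases b
  · rw [act_false, if_neg h1, if_neg h2]
  · rw [act_true, if_neg h1, if_neg h2]

theorem act_eq_self {t : F} (ht : t ≠ 0) (l : Letter) (x : ℕ → F) (h : x l.1 = x (l.1 + 1)) :
    act t l x = x := by
  obtain ⟨i, b⟩ := l
  simp only at h
  funext j
  cases b
  · rw [act_false]
    by_cases h1 : j = i
    · subst h1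
      rw [if_pos rfl, h]
    · rw [if_neg h1]
      by_cases h2 : j = i + 1
      · subst h2
        rw [if_pos rfl, h]
        field_simp
        ring
      · rw [if_neg h2]
  · rw [act_true]
    by_cases h1 : j = i
    · subst h1
      rw [if_pos rfl, h]
      ring
    · rw [if_neg h1]
      by_cases h2 : j = i + 1
      · subst h2
        rw [if_pos rfl, h]
      · rw [if_neg h2]

theorem act_act_not {t : F} (ht : t ≠ 0) (i : ℕ) (b : Bool) (x : ℕ → F) :
    act t (i, !b) (act t (i, b) x) = x := by
  funext j
  have hi : i ≠ i + 1 := by omega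
  have hi' : i + 1 ≠ i := by omega
  cases b
  · simp only [Bool.not_false]
    rw [act_true]
    simp only [act_false]
    by_cases h1 : j = i
    · subst h1
      simp only [if_true, if_neg hi']
      field_simp
      ring
    · simp only [if_neg h1]
      by_cases h2 : j = i + 1
      · subst h2
        simp
      · simp only [if_neg h2]
  · simp only [Bool.not_true]
    rw [act_false]
    simp only [act_true]
    by_cases h1 : j = i
    · subst h1
      simp only [if_true, if_neg hi']
    · simp only [if_neg h1]
      by_cases h2 : j = i + 1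
      · subst h2
        simp only [if_true, if_neg hi']
        field_simp
        ring
      · simp only [if_neg h2]

theorem actWord_nil (t : F) (x : ℕ → F) : actWord t [] x = x := rfl

theorem actWord_cons (t : F) (l : Letter) (w : List Letter) (x : ℕ → F) :
    actWord t (l :: w) x = actWord t w (act t l x) := rfl

theorem actWord_append (t : F) (u v : List Letter) (x : ℕ → F) :
    actWord t (u ++ v) x = actWord t v (actWord t u x) := by
  induction u generalizing x with
  | nil => rfl
  | cons l u ih => exact ih _

theorem act_comm (t : F) (i j : ℕ) (b c : Bool) (hij : i + 2 ≤ j) (x : ℕ → F) :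
    act t (j, c) (act t (i, b) x) = act t (i, b) (act t (j, c) x) := by
  have e1 : act t (i, b) x j = x j := act_of_ne t _ x j (by simp only; omega) (by simp only; omega)
  have e2 : act t (i, b) x (j + 1) = x (j + 1) :=
    act_of_ne t _ x _ (by simp only; omega) (by simp only; omega)
  have e3 : act t (j, c) x i = x i := act_of_ne t _ x i (by simp only; omega) (by simp only; omega)
  have e4 : act t (j, c) x (i + 1) = x (i + 1) :=
    act_of_ne t _ x _ (by simp only; omega) (by simp only; omega)
  funext k
  by_cases h1 : k = i ∨ k = i + 1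
  · have hk1 : k ≠ j := by omega
    have hk2 : k ≠ j + 1 := by omega
    rw [act_of_ne t (j, c) _ k hk1 hk2]
    rcases h1 with h1 | h1 <;> subst h1 <;> cases b
    · rw [act_false, act_false]; simp [e4]
    · rw [act_true, act_true]; simp [e3, e4]
    · rw [act_false, act_false]; simp [e3, e4]
    · rw [act_true, act_true]; simp [e3]
  · have hk1 : k ≠ i := by omega
    have hk2 : k ≠ i + 1 := by omega
    rw [act_of_ne t (i, b) _ k hk1 hk2]
    by_cases h2 : k = j ∨ k = j + 1
    · rcases h2 with h2 | h2 <;> subst h2 <;> cases c
      · rw [act_false, act_false]; simp [e2]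
      · rw [act_true, act_true]; simp [e1, e2]
      · rw [act_false, act_false]; simp [e1, e2]
      · rw [act_true, act_true]; simp [e1]
    · have hk3 : k ≠ j := by omega
      have hk4 : k ≠ j + 1 := by omega
      rw [act_of_ne t (j, c) _ k hk3 hk4, act_of_ne t (j, c) _ k hk3 hk4,
        act_of_ne t (i, b) _ k hk1 hk2]

theorem act_braid (t : F) (i : ℕ) (x : ℕ → F) :
    act t (i, true) (act t (i + 1, true) (act t (i, true) x)) =
      act t (i + 1, true) (act t (i, true) (act t (i + 1, true) x)) := by
  have a1 : i ≠ i + 1 + 1 := by omega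
  have a2 : i + 1 + 1 ≠ i := by omega
  have a3 : i + 1 ≠ i := by omega
  have a4 : i ≠ i + 1 := by omega
  have a5 : i + 1 + 1 ≠ i + 1 := by omega
  funext k
  by_cases h1 : k = i
  · subst h1
    simp only [act_true, if_neg a1, if_neg a2, if_neg a3, if_neg a4, if_neg a5, if_true]
    ring
  · by_cases h2 : k = i + 1
    · subst h2
      simp only [act_true, if_neg a1, if_neg a2, if_neg a3, if_neg a4, if_true]
      simp
    · by_cases h3 : k = i + 2
      · subst h3
        simp [act_true, a1]
      · simp [act_true, h1, h2, h3]

/-- The action of a word whose letters lie below `n` does not touch the coordinates `≥ n`. -/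
theorem actWord_ge (t : F) (n : ℕ) (w : List Letter) (hw : ∀ l ∈ w, l.1 + 1 < n) (x : ℕ → F)
    (j : ℕ) (hj : n ≤ j) : actWord t w x j = x j := by
  induction w generalizing x with
  | nil => rfl
  | cons l w ih =>
    have h1 := hw l (by simp)
    rw [actWord_cons, ih (fun l' hl' => hw l' (by simp [hl'])),
      act_of_ne t l x j (by omega) (by omega)]

/-- The action of a word whose letters lie below `n` only depends on the coordinates `< n`. -/
theorem actWord_congr (t : F) (n : ℕ) (w : List Letter) (hw : ∀ l ∈ w, l.1 + 1 < n)
    (x y : ℕ → F) (hxy : ∀ j < n, x j = y j) : ∀ j < n, actWord t w x j = actWord t w y j := by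
  induction w generalizing x y with
  | nil => exact hxy
  | cons l w ih =>
    have h1 := hw l (by simp)
    refine ih (fun l' hl' => hw l' (by simp [hl'])) _ _ ?_
    intro j hj
    obtain ⟨i, b⟩ := l
    simp only at h1
    cases b
    · rw [act_false, act_false, hxy i (by omega), hxy (i + 1) (by omega), hxy j hj]
    · rw [act_true, act_true, hxy i (by omega), hxy (i + 1) (by omega), hxy j hj]

/-- The action of a shifted word. -/
theorem actWord_shift (t : F) (n : ℕ) (w : List Letter) (x : ℕ → F) :
    (∀ j, actWord t (w.map (fun l => (l.1 + n, l.2))) x (j + n) =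
      actWord t w (fun j => x (j + n)) j) ∧
    (∀ j < n, actWord t (w.map (fun l => (l.1 + n, l.2))) x j = x j) := by
  induction w generalizing x with
  | nil => exact ⟨fun _ => rfl, fun _ _ => rfl⟩
  | cons l w ih =>
    obtain ⟨i, b⟩ := l
    rw [List.map_cons]
    simp only [actWord_cons]
    have key : (fun j => act t (i + n, b) x (j + n)) = act t (i, b) (fun j => x (j + n)) := by
      funext j
      have e1 : (j + n = i + n) = (j = i) := by simp
      have e2 : (j + n = i + 1 + n) = (j = i + 1) := by
        apply propext
        omega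
      have e3 : i + n + 1 = i + 1 + n := by omega
      cases b
      · simp only [act_false, e1, e2, e3]
      · simp only [act_true, e1, e2, e3]
    refine ⟨fun j => ?_, fun j hj => ?_⟩
    · rw [(ih _).1 j, key]
    · rw [(ih _).2 j hj, act_of_ne t _ x j (by simp only; omega) (by simp only; omega)]

/-- Functions supported on the first `n` coordinates. -/
noncomputable def toFin (n : ℕ) : (ℕ → F) →ₗ[F] (Fin n → F) where
  toFun x i := x i
  map_add' _ _ := rfl
  map_smul' _ _ := rfl

instance finite_colourings (t : F) (D : Diagram) : Module.Finite F (colourings t D) := by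
  have hinj : Function.Injective ((toFin (F := F) D.strands) ∘ₗ (colourings t D).subtype) := by
    rintro ⟨x, hx⟩ ⟨y, hy⟩ h
    apply Subtype.ext
    funext j
    by_cases hj : j < D.strands
    · exact congrFun h ⟨j, hj⟩
    · exact (hx.1 j (not_lt.1 hj)).trans (hy.1 j (not_lt.1 hj)).symm
  exact Module.Finite.of_injective _ hinj

/-- The dimension of the space of colourings. -/
noncomputable def dimCol0 (t : F) (D : Diagram) : ℕ := finrank F (colourings t D)

theorem dimCol0_le_of_map {t : F} {D E : Diagram} (φ : (ℕ → F) →ₗ[F] (ℕ → F))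
    (hφ : ∀ x ∈ colourings t D, φ x ∈ colourings t E)
    (hinj : ∀ x ∈ colourings t D, φ x = 0 → x = 0) : dimCol0 t D ≤ dimCol0 t E := by
  let ψ : colourings t D →ₗ[F] colourings t E :=
    (φ ∘ₗ (colourings t D).subtype).codRestrict (colourings t E) (fun x => hφ x.1 x.2)
  refine LinearMap.finrank_le_finrank_of_injective (f := ψ) ?_
  rw [← LinearMap.ker_eq_bot, LinearMap.ker_eq_bot']
  rintro ⟨x, hx⟩ h
  have h' : φ x = 0 := congrArg Subtype.val h
  exact Subtype.ext (hinj x hx h')

theorem dimCol0_eq_of_act {t : F} {D E : Diagram} (hs : D.strands = E.strands)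
    (h : ∀ x, actWord t D.word x = actWord t E.word x) : dimCol0 t D = dimCol0 t E := by
  have : colourings t D = colourings t E := by
    ext x
    rw [mem_colourings, mem_colourings, hs, h]
  rw [dimCol0, dimCol0, this]

theorem dimCol0_conj_le {t : F} {D E : Diagram} (u v : List Letter) (hs : D.strands = E.strands)
    (hD : D.word = u ++ v) (hE : E.word = v ++ u) : dimCol0 t D ≤ dimCol0 t E := by
  refine dimCol0_le_of_map (actWord t u) ?_ ?_
  · rintro x ⟨hx, hx'⟩
    rw [hD, actWord_append] at hx'
    refine ⟨fun j hj => ?_, ?_⟩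
    · rw [actWord_ge t D.strands u (fun l hl => D.valid l (by rw [hD]; simp [hl])) x j
        (hs ▸ hj)]
      exact hx j (hs ▸ hj)
    · rw [hE, actWord_append, hx']
  · rintro x ⟨hx, hx'⟩ h0
    rw [hD, actWord_append, h0, map_zero] at hx'
    exact hx'.symm

/-- Extension of a colouring under stabilisation. -/
noncomputable def ext (n : ℕ) : (ℕ → F) →ₗ[F] (ℕ → F) where
  toFun x j := if j = n then x (n - 1) else x j
  map_add' x y := by
    funext j
    simp only [Pi.add_apply]
    split_ifs <;> rfl
  map_smul' c x := by
    funext j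
    simp only [Pi.smul_apply, RingHom.id_apply]
    split_ifs <;> rfl

/-- Truncation of a colouring. -/
noncomputable def trunc (n : ℕ) : (ℕ → F) →ₗ[F] (ℕ → F) where
  toFun x j := if j < n then x j else 0
  map_add' x y := by
    funext j
    simp only [Pi.add_apply]
    split_ifs <;> simp
  map_smul' c x := by
    funext j
    simp only [Pi.smul_apply, RingHom.id_apply]
    split_ifs <;> simp

theorem ext_apply (n : ℕ) (x : ℕ → F) (j : ℕ) :
    ext n x j = if j = n then x (n - 1) else x j := rfl

theorem trunc_apply (n : ℕ) (x : ℕ → F) (j : ℕ) :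
    trunc n x j = if j < n then x j else 0 := rfl

theorem dimCol0_stab {t : F} (ht : t ≠ 0) {D E : Diagram} (b : Bool)
    (hs : D.strands = E.strands + 1) (hD : D.word = E.word ++ [(E.strands - 1, b)]) :
    dimCol0 t D = dimCol0 t E := by
  obtain ⟨n, hn⟩ : ∃ n, E.strands = n + 1 := ⟨E.strands - 1, by have := E.pos; omega⟩
  have hv := E.valid
  rw [hn] at hs hD hv
  rw [Nat.add_sub_cancel] at hD
  apply le_antisymm
  · have key : ∀ x ∈ colourings t D, x n = x (n + 1) ∧
        ∀ j < n + 1, actWord t E.word x j = x j := by
      rintro x ⟨hx, hx'⟩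
      rw [hD, actWord_append] at hx'
      set y := actWord t E.word x with hy
      have hyn : y (n + 1) = x (n + 1) := actWord_ge t (n + 1) _ hv x _ le_rfl
      rw [actWord_cons, actWord_nil] at hx'
      have h1 := congrFun hx' n
      have h2 := congrFun hx' (n + 1)
      have h3 : n + 1 ≠ n := by omega
      have hfin : y n = x n ∧ x n = x (n + 1) := by
        cases b
        · rw [act_false, if_pos rfl, hyn] at h1
          rw [act_false, if_neg h3, if_pos rfl, hyn] at h2
          have h4 : y n = x (n + 1) := by
            field_simp at h2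
            linear_combination h2
          exact ⟨h4.trans h1, h1.symm⟩
        · rw [act_true, if_pos rfl, hyn] at h1
          rw [act_true, if_neg h3, if_pos rfl] at h2
          have h4 : y n = x n := by
            rw [← h2] at h1
            linear_combination h1
          exact ⟨h4, h4.symm.trans h2⟩
      refine ⟨hfin.2, fun j hj => ?_⟩
      by_cases hjn : j = n
      · rw [hjn]
        exact hfin.1
      · have h5 := congrFun hx' j
        rwa [act_of_ne t _ _ j (by simp only; omega) (by simp only; omega)] at h5
    refine dimCol0_le_of_map (trunc (n + 1)) ?_ ?_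
    · intro x hx
      refine ⟨fun j hj => ?_, ?_⟩
      · rw [trunc_apply, if_neg (by omega)]
      · funext j
        by_cases hj : j < n + 1
        · rw [actWord_congr t (n + 1) _ hv (trunc (n + 1) x) x
            (fun k hk => by rw [trunc_apply, if_pos hk]) j hj, (key x hx).2 j hj, trunc_apply,
            if_pos hj]
        · rw [actWord_ge t (n + 1) _ hv _ _ (by omega)]
    · intro x hx h0
      have h1 : ∀ j < n + 1, x j = 0 := by
        intro j hj
        have := congrFun h0 j
        rwa [trunc_apply, if_pos hj] at this
      funext j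
      by_cases hj : j < n + 1
      · exact h1 j hj
      · by_cases hj' : j = n + 1
        · rw [hj', ← (key x hx).1]
          exact h1 n (by omega)
        · exact hx.1 j (by omega)
  · refine dimCol0_le_of_map (ext (n + 1)) ?_ ?_
    · rintro x ⟨hx, hx'⟩
      refine ⟨fun j hj => ?_, ?_⟩
      · rw [ext_apply, if_neg (by omega)]
        exact hx j (by omega)
      · rw [hD, actWord_append]
        have h1 : actWord t E.word (ext (n + 1) x) = ext (n + 1) x := by
          funext j
          by_cases hj : j < n + 1
          · rw [actWord_congr t (n + 1) _ hv (ext (n + 1) x) x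
              (fun k hk => by rw [ext_apply, if_neg (by omega)]) j hj, hx', ext_apply,
              if_neg (by omega)]
          · rw [actWord_ge t (n + 1) _ hv _ _ (by omega)]
        rw [h1, actWord_cons, actWord_nil]
        refine act_eq_self ht _ _ ?_
        simp only
        rw [ext_apply, ext_apply, if_neg (by omega), if_pos rfl, Nat.add_sub_cancel]
    · rintro x ⟨hx, hx'⟩ h0
      funext j
      by_cases hj : j = n + 1
      · exact hx j (by omega)
      · have := congrFun h0 j
        rwa [ext_apply, if_neg hj] at this

theorem dimCol0_step {t : F} (ht : t ≠ 0) {D E : Diagram} (h : Step D E) :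
    dimCol0 t D = dimCol0 t E := by
  rcases h with ⟨u, v, i, b, hs, hD, hE⟩ | ⟨u, v, i, j, b, c, hij, hs, hD, hE⟩ |
    ⟨u, v, i, hs, hD, hE⟩ | ⟨u, v, hs, hD, hE⟩ | ⟨b, hs, hD⟩
  · refine dimCol0_eq_of_act hs (fun x => ?_)
    rw [hD, hE, actWord_append, actWord_append, actWord_cons, actWord_cons, act_act_not ht]
  · refine dimCol0_eq_of_act hs (fun x => ?_)
    rw [hD, hE]
    simp only [actWord_append, actWord_cons]
    rw [act_comm t i j b c hij]
  · refine dimCol0_eq_of_act hs (fun x => ?_)
    rw [hD, hE]
    simp only [actWord_append, actWord_cons]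
    rw [act_braid]
  · exact le_antisymm (dimCol0_conj_le u v hs hD hE) (dimCol0_conj_le v u hs.symm hE hD)
  · exact dimCol0_stab ht b hs hD

theorem dimCol0_sameLink {t : F} (ht : t ≠ 0) {D E : Diagram} (h : SameLink D E) :
    dimCol0 t D = dimCol0 t E := by
  induction h with
  | rel _ _ h => exact dimCol0_step ht h
  | refl _ => rfl
  | symm _ _ _ ih => exact ih.symm
  | trans _ _ _ _ _ ih1 ih2 => exact ih1.trans ih2

/-- If all colourings of `D` satisfying one linear equation are colourings of `E`, the dimension
drops by at most one. -/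
theorem dimCol0_le_succ {t : F} {D E : Diagram} (φ : (ℕ → F) →ₗ[F] F)
    (h : ∀ x ∈ colourings t D, φ x = 0 → x ∈ colourings t E) :
    dimCol0 t D ≤ dimCol0 t E + 1 := by
  let ψ : colourings t D →ₗ[F] F := φ ∘ₗ (colourings t D).subtype
  have h1 := LinearMap.finrank_range_add_finrank_ker ψ
  have h2 : finrank F (LinearMap.range ψ) ≤ 1 := by
    have := Submodule.finrank_le (LinearMap.range ψ)
    rwa [finrank_self] at this
  let χ : LinearMap.ker ψ →ₗ[F] colourings t E :=
    ((colourings t D).subtype ∘ₗ (LinearMap.ker ψ).subtype).codRestrict (colourings t E)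
      (fun x => h x.1.1 x.1.2 x.2)
  have h3 : finrank F (LinearMap.ker ψ) ≤ finrank F (colourings t E) := by
    refine LinearMap.finrank_le_finrank_of_injective (f := χ) ?_
    rintro ⟨⟨x, hx⟩, hx'⟩ ⟨⟨y, hy⟩, hy'⟩ hxy
    have : x = y := congrArg Subtype.val hxy
    subst this
    rfl
  unfold dimCol0
  omega

/-- The functional comparing the colours of the strands `i`, `i + 1` after the word `u`. -/
noncomputable def gap (t : F) (u : List Letter) (i : ℕ) : (ℕ → F) →ₗ[F] F :=
  ((LinearMap.proj i : (ℕ → F) →ₗ[F] F) - (LinearMap.proj (i + 1) : (ℕ → F) →ₗ[F] F)) ∘ₗ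
    actWord t u

theorem gap_eq_zero {t : F} {u : List Letter} {i : ℕ} {x : ℕ → F}
    (h : gap t u i x = 0) : actWord t u x i = actWord t u x (i + 1) := by
  have h' : actWord t u x i - actWord t u x (i + 1) = 0 := h
  exact sub_eq_zero.1 h'

theorem dimCol0_crossingChange {t : F} (ht : t ≠ 0) {D E : Diagram} (h : CrossingChange D E) :
    dimCol0 t D ≤ dimCol0 t E + 1 := by
  obtain ⟨u, v, i, b, hs, hD, hE⟩ := h
  refine dimCol0_le_succ (gap t u i) ?_
  rintro x ⟨hx, hx'⟩ h0
  have h1 := gap_eq_zero h0
  rw [hD, actWord_append, actWord_cons, act_eq_self ht _ _ h1] at hx'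
  refine ⟨hs ▸ hx, ?_⟩
  rw [hE, actWord_append, actWord_cons, act_eq_self ht _ _ h1, hx']

theorem dimCol0_bandMove {t : F} (ht : t ≠ 0) {D E : Diagram} (h : BandMove D E) :
    dimCol0 t D ≤ dimCol0 t E + 1 := by
  obtain ⟨u, v, i, b, hs, hD, hE⟩ := h
  refine dimCol0_le_succ (gap t u i) ?_
  rintro x ⟨hx, hx'⟩ h0
  have h1 := gap_eq_zero h0
  rw [hD, actWord_append] at hx'
  refine ⟨hs ▸ hx, ?_⟩
  rw [hE, actWord_append, actWord_cons, act_eq_self ht _ _ h1, hx']

/-- Gluing of colourings for a split union. -/
noncomputable def glue (n : ℕ) : (ℕ → F) × (ℕ → F) →ₗ[F] (ℕ → F) where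
  toFun p j := if j < n then p.1 j else p.2 (j - n)
  map_add' p q := by
    funext j
    simp only [Prod.fst_add, Prod.snd_add, Pi.add_apply]
    split_ifs <;> rfl
  map_smul' c p := by
    funext j
    simp only [Prod.smul_fst, Prod.smul_snd, Pi.smul_apply, RingHom.id_apply]
    split_ifs <;> rfl

theorem glue_apply (n : ℕ) (p : (ℕ → F) × (ℕ → F)) (j : ℕ) :
    glue n p j = if j < n then p.1 j else p.2 (j - n) := rfl

theorem dimCol0_split (t : F) (D E : Diagram) :
    dimCol0 t D + dimCol0 t E ≤ dimCol0 t (split D E) := by
  have hmem : ∀ x ∈ colourings t D, ∀ y ∈ colourings t E,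
      glue D.strands (x, y) ∈ colourings t (split D E) := by
    rintro x ⟨hx, hx'⟩ y ⟨hy, hy'⟩
    refine ⟨fun j hj => ?_, ?_⟩
    · have hj' : D.strands + E.strands ≤ j := hj
      rw [glue_apply, if_neg (by omega)]
      exact hy _ (by omega)
    · change actWord t (D.word ++ E.word.map (fun l => (l.1 + D.strands, l.2))) _ = _
      rw [actWord_append]
      have h1 : actWord t D.word (glue D.strands (x, y)) = glue D.strands (x, y) := by
        funext j
        by_cases hj : j < D.strands
        · rw [actWord_congr t D.strands _ D.valid (glue D.strands (x, y)) x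
            (fun k hk => by rw [glue_apply, if_pos hk]) j hj, hx', glue_apply, if_pos hj]
        · rw [actWord_ge t D.strands _ D.valid _ _ (by omega)]
      rw [h1]
      have h2 := actWord_shift t D.strands E.word (glue D.strands (x, y))
      funext j
      by_cases hj : j < D.strands
      · exact h2.2 j hj
      · obtain ⟨k, rfl⟩ : ∃ k, j = k + D.strands := ⟨j - D.strands, by omega⟩
        rw [h2.1 k]
        have h3 : (fun j => glue D.strands (x, y) (j + D.strands)) = y := by
          funext m
          rw [glue_apply, if_neg (by omega), Nat.add_sub_cancel]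
        rw [h3, hy', glue_apply, if_neg (by omega), Nat.add_sub_cancel]
  let ψ : (colourings t D × colourings t E) →ₗ[F] colourings t (split D E) :=
    ((glue D.strands) ∘ₗ ((colourings t D).subtype.prodMap (colourings t E).subtype)).codRestrict
      (colourings t (split D E)) (fun p => hmem p.1.1 p.1.2 p.2.1 p.2.2)
  have h4 : finrank F (colourings t D × colourings t E) ≤
      finrank F (colourings t (split D E)) := by
    refine LinearMap.finrank_le_finrank_of_injective (f := ψ) ?_
    rw [← LinearMap.ker_eq_bot, LinearMap.ker_eq_bot']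
    rintro ⟨⟨x, hx⟩, ⟨y, hy⟩⟩ h
    have h' : glue D.strands (x, y) = 0 := congrArg Subtype.val h
    have hx0 : x = 0 := by
      funext j
      by_cases hj : j < D.strands
      · have := congrFun h' j
        rwa [glue_apply, if_pos hj] at this
      · exact hx.1 j (not_lt.1 hj)
    have hy0 : y = 0 := by
      funext j
      have := congrFun h' (j + D.strands)
      rwa [glue_apply, if_neg (by omega), Nat.add_sub_cancel] at this
    subst hx0
    subst hy0
    rfl
  rw [finrank_prod] at h4
  exact h4

theorem dimCol0_unknot (t : F) : dimCol0 t unknot ≤ 1 := by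
  let ψ : colourings t unknot →ₗ[F] F := (LinearMap.proj 0) ∘ₗ (colourings t unknot).subtype
  have h : finrank F (colourings t unknot) ≤ finrank F F := by
    refine LinearMap.finrank_le_finrank_of_injective (f := ψ) ?_
    rintro ⟨x, hx⟩ ⟨y, hy⟩ h
    apply Subtype.ext
    funext j
    by_cases hj : j = 0
    · subst hj
      exact h
    · exact (hx.1 j (Nat.one_le_iff_ne_zero.2 hj)).trans
        (hy.1 j (Nat.one_le_iff_ne_zero.2 hj)).symm
  rwa [finrank_self] at h

theorem actWord_const {t : F} (ht : t ≠ 0) (n : ℕ) (w : List Letter)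
    (hw : ∀ l ∈ w, l.1 + 1 < n) :
    actWord t w (fun j => if j < n then 1 else 0) = (fun j => if j < n then 1 else 0) := by
  induction w with
  | nil => rfl
  | cons l w ih =>
    have h1 := hw l (by simp)
    rw [actWord_cons, act_eq_self ht l _ (by rw [if_pos (by omega), if_pos h1])]
    exact ih (fun l' hl' => hw l' (by simp [hl']))

theorem one_le_dimCol0 {t : F} (ht : t ≠ 0) (D : Diagram) : 1 ≤ dimCol0 t D := by
  have hmem : (fun j => if j < D.strands then (1 : F) else 0) ∈ colourings t D :=
    ⟨fun j hj => if_neg (not_lt.2 hj), actWord_const ht _ _ D.valid⟩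
  have : Nontrivial (colourings t D) := by
    refine ⟨⟨⟨_, hmem⟩, 0, fun h => ?_⟩⟩
    have h1 := congrFun (congrArg Subtype.val h) 0
    simp [D.pos] at h1
  exact Module.finrank_pos

theorem dimCol0_unknotsIn {t : F} (ht : t ≠ 0) {k : ℕ} {D : Diagram} (h : UnknotsIn k D) :
    dimCol0 t D ≤ k + 1 := by
  induction h with
  | unknot h => rw [dimCol0_sameLink ht h]; simpa using dimCol0_unknot t
  | change h h' _ ih =>
    rw [dimCol0_sameLink ht h]
    have := dimCol0_crossingChange ht h'
    omega

end Colourings

/-- the crossing rule as a linear map -/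
theorem act_eq_cross {F : Type*} [Field F] (t : F) (l : Letter) (x : ℕ → F) :
    act t l x = cross t x l := by
  obtain ⟨i, b⟩ := l
  cases b
  · rfl
  · rfl

theorem foldl_cross {F : Type*} [Field F] (t : F) (w : List Letter) :
    ∀ x : ℕ → F, w.foldl (cross t) x = actWord t w x := by
  induction w with
  | nil => intro x; rfl
  | cons l w ih =>
    intro x
    rw [List.foldl_cons, ih, actWord_cons, act_eq_cross]

theorem col_eq {F : Type*} [Field F] (t : F) (D : Diagram) :
    Col t D = (colourings t D : Set (ℕ → F)) := by
  ext x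
  simp only [Col, Set.mem_ofPred_eq, SetLike.mem_coe, mem_colourings, foldl_cross]

theorem finrank_col {F : Type*} [Field F] (t : F) (D : Diagram) :
    Set.finrank F (Col t D) = dimCol0 t D := by
  unfold dimCol0
  rw [col_eq, Set.finrank, Submodule.span_eq]

theorem two_le_dimCol0 {F : Type*} [Field F] {t : F} (ht : t ≠ 0) {D : Diagram}
    (h : NonConstant t D) : 2 ≤ dimCol0 t D := by
  obtain ⟨x, hx, i, hi, j, hj, hij⟩ := h
  rw [col_eq] at hx
  have hmem : (fun j => if j < D.strands then (1 : F) else 0) ∈ colourings t D :=
    ⟨fun j hj => if_neg (not_lt.2 hj), actWord_const ht _ _ D.valid⟩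
  have hli : LinearIndependent F
      ![(⟨_, hmem⟩ : colourings t D), (⟨x, hx⟩ : colourings t D)] := by
    rw [LinearIndependent.pair_iff]
    intro a b hab
    have h1 := congrFun (congrArg Subtype.val hab) i
    have h2 := congrFun (congrArg Subtype.val hab) j
    simp only [Submodule.coe_add, Submodule.coe_smul, Pi.add_apply, Pi.smul_apply, smul_eq_mul,
      if_pos hi, if_pos hj, Submodule.coe_zero, Pi.zero_apply, mul_one] at h1 h2
    have h3 : b * (x i - x j) = 0 := by linear_combination h1 - h2
    have hb : b = 0 := (mul_eq_zero.1 h3).resolve_right (sub_ne_zero.2 hij)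
    refine ⟨?_, hb⟩
    rw [hb, zero_mul, add_zero] at h1
    exact h1
  have := hli.fintype_card_le_finrank
  simpa [dimCol0] using this

theorem bound {F : Type*} [Field F] (t : F) (ht : t ≠ 0) (K K₁ K₂ : Diagram)
    (h : IsBandSum K K₁ K₂) :
    (((Set.finrank F (Col t K₁) - 1) + (Set.finrank F (Col t K₂) - 1) : ℕ) : ℕ∞) ≤
        unknottingNumber K ∧
      (NonConstant t K₁ → NonConstant t K₂ → 1 < unknottingNumber K) := by
  have key : (((dimCol0 t K₁ - 1) + (dimCol0 t K₂ - 1) : ℕ) : ℕ∞) ≤ unknottingNumber K := by
    obtain ⟨-, -, -, S, D, E, ⟨hS1, hS2⟩, h1, h2, h3⟩ := h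
    have hS : S = split K₁ K₂ := by
      cases S
      simp only at hS1 hS2
      subst hS1 hS2
      rfl
    subst hS
    refine le_iInf fun k => le_iInf fun hk => ?_
    have e1 := dimCol0_sameLink ht h1
    have e2 := dimCol0_sameLink ht h3
    have e3 := dimCol0_bandMove ht h2
    have e4 := dimCol0_split t K₁ K₂
    have e5 := dimCol0_unknotsIn ht hk
    have e6 := one_le_dimCol0 ht K₁
    have e7 := one_le_dimCol0 ht K₂
    exact_mod_cast (by omega : (dimCol0 t K₁ - 1) + (dimCol0 t K₂ - 1) ≤ k)
  rw [finrank_col, finrank_col]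
  refine ⟨key, fun h1 h2 => lt_of_lt_of_le ?_ key⟩
  have e1 := two_le_dimCol0 ht h1
  have e2 := two_le_dimCol0 ht h2
  exact_mod_cast (by omega : 1 < (dimCol0 t K₁ - 1) + (dimCol0 t K₂ - 1))

end Pool.Agent.Helper82.BS
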